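import Pool.Agent.H898.AutW3

set_option autoImplicit false

/-!
# Divisibility of `|Aut G|` by Sylow subgroups, for all finite groups up to a defect

Neumann's question: does `|Aut G|` divide `|G / Z(G)| * ∏ |Aut P_i|` for every finite group `G`?
We prove, for EVERY finite group `G`, that `|Aut G|` divides
`|G / Z(G)| * ∏ |Aut P_i| * ∏ defect S`, the last product over the composition factors `S` of `G`,
where `defect S` divides `|Out S|` and is the product of the `r`-parts of `|Out S|` over the
primes `r` dividing `|S|` for which some `r`-group of automorphisms of `S` centralizing a Sylow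
`r`-subgroup `Q` of `S` has order larger than `|Q|`.
-/

namespace Pool.Agent.Results.MP_d45cc7_al.AllFiniteGroups

open Subgroup

/-- The right-hand side of the divisibility: `|G / Z(G)| * ∏ |Aut P_p|`, the product over the
primes `p` dividing `|G|`. -/
noncomputable def rhs (G : Type) [Group G]
    (P : ∀ p ∈ (Nat.card G).primeFactors, Sylow p G) : ℕ :=
  Nat.card (G ⧸ center G) *
    ∏ p : (Nat.card G).primeFactors, Nat.card (MulAut (↥(P p.1 p.2 : Subgroup G)))

/-- Every `r`-group of automorphisms of `S` that centralizes a Sylow `r`-subgroup `Q` of `S` has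
order at most `|Q|`. -/
def CentralizerBound (r : ℕ) (S : Type) [Group S] : Prop :=
  ∀ (Q : Sylow r S) (R : Subgroup (MulAut S)), IsPGroup r R →
    (∀ α ∈ R, ∀ x ∈ Q, α x = x) → Nat.card R ≤ Nat.card Q

/-- `|Out S|`: the index of the group of inner automorphisms in `Aut S`. -/
noncomputable def outOrder (S : Type) [Group S] : ℕ :=
  (MulAut.conj : S →* MulAut S).range.index

open Classical in
/-- The product of the `r`-parts of `|Out S|` over the primes `r` dividing `|S|` for which the
centralizer bound fails. -/
noncomputable def defect (S : Type) [Group S] : ℕ :=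
  ∏ r ∈ (Nat.card S).primeFactors.filter (fun r => ¬ CentralizerBound r S),
    r ^ (outOrder S).factorization r

/-- `CompositionProduct f G w`: the product of `f S` over the factors `S` of some composition
series of `G` is `w`. -/
inductive CompositionProduct (f : (S : Type) → [Group S] → ℕ) : (G : Type) → [Group G] → ℕ → Prop
  | trivial (G : Type) [Group G] : Subsingleton G → CompositionProduct f G 1
  | extend (G : Type) [Group G] (N : Subgroup G) [N.Normal] (w : ℕ) : IsSimpleGroup (G ⧸ N) →
      CompositionProduct f N w → CompositionProduct f G (w * f (G ⧸ N))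

/-- `S` is a nonabelian composition factor of `G`: a nonabelian simple group isomorphic to
`H / K` with `H` subnormal in `G` and `K` normal in `H`. -/
structure IsNonabelianFactor (S G : Type) [Group S] [Group G] : Prop where
  simple : IsSimpleGroup S
  nonabelian : ∃ x y : S, x * y ≠ y * x
  factor : ∃ (H : Subgroup G) (K : Subgroup H) (_ : K.Normal),
    H.IsSubnormal ∧ Nonempty (S ≃* H ⧸ K)

lemma toSer {f : (S : Type) → [Group S] → ℕ} {G : Type} [Group G] {w : ℕ}
    (h : CompositionProduct f G w) : Pool.Agent.H898.AutSyl.Ser f G w := by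
  induction h with
  | trivial G hG => exact .one G hG
  | extend G N w hs _ ih => exact .step G N w hs ih

lemma ofSer {f : (S : Type) → [Group S] → ℕ} {G : Type} [Group G] {w : ℕ}
    (h : Pool.Agent.H898.AutSyl.Ser f G w) : CompositionProduct f G w := by
  induction h with
  | one G hG => exact .trivial G hG
  | step G N w hs _ ih => exact .extend G N w hs ih

lemma ser_unique {f : (S : Type) → [Group S] → ℕ} (hf : Pool.Agent.H898.AutSyl.IsoInv f)
    {G : Type} [Group G] {w : ℕ} (h : Pool.Agent.H898.AutSyl.Ser f G w) :
    ∀ w', Pool.Agent.H898.AutSyl.Ser f G w' → w' = w := by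
  induction h with
  | one G hG =>
    intro w' h'
    exact h'.of_subsingleton hG
  | step G N w hs _ ih =>
    intro w' h'
    obtain ⟨w1, w2, h1, h2, rfl⟩ := h'.mul hf N
    rw [ih w1 h1, h2.of_simple hf hs]

lemma outOrder_iso {S S' : Type} [Group S] [Group S'] (e : S ≃* S') :
    outOrder S = outOrder S' := by
  unfold outOrder
  have h : (MulAut.conj : S' →* MulAut S').range =
      (MulAut.conj : S →* MulAut S).range.map (MulAut.congr e).toMonoidHom := by
    ext α
    constructor
    · rintro ⟨s, rfl⟩
      refine ⟨MulAut.conj (e.symm s), ⟨_, rfl⟩, ?_⟩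
      ext x
      show e (e.symm s * e.symm x * (e.symm s)⁻¹) = s * x * s⁻¹
      simp
    · rintro ⟨_, ⟨s, rfl⟩, rfl⟩
      refine ⟨e s, ?_⟩
      ext x
      show e s * x * (e s)⁻¹ = e (s * e.symm x * s⁻¹)
      simp
  rw [h]
  exact (index_map_equiv _ (MulAut.congr e)).symm

lemma centralizerBound_iso {r : ℕ} {S S' : Type} [Group S] [Group S'] (e : S ≃* S')
    (h : CentralizerBound r S) : CentralizerBound r S' := by
  intro Q' R' hR' hQ'
  let Q : Sylow r S := Q'.comapOfInjective e.toMonoidHom e.injective (by
    rw [MonoidHom.range_eq_top.mpr e.surjective]; exact le_top)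
  let R : Subgroup (MulAut S) := R'.comap (MulAut.congr e).toMonoidHom
  have h1 := h Q R (hR'.comap_of_injective _ (MulAut.congr e).injective) (by
    intro α hα x hx
    have h2 : (MulAut.congr e α) (e x) = e x := hQ' _ hα _ hx
    have h3 : (MulAut.congr e α) (e x) = e (α (e.symm (e x))) := rfl
    rw [h3, e.symm_apply_apply] at h2
    exact e.injective h2)
  have hQcard : Nat.card Q = Nat.card Q' := by
    refine Nat.card_congr
      { toFun := fun x => (⟨e x, x.2⟩ : Q')
        invFun := fun x => (⟨e.symm x, (by
          show e (e.symm x) ∈ Q'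
          rw [e.apply_symm_apply]; exact x.2)⟩ : Q)
        left_inv := fun x => Subtype.ext (e.symm_apply_apply x)
        right_inv := fun x => Subtype.ext (e.apply_symm_apply x) }
  have hRcard : Nat.card R = Nat.card R' := by
    refine Nat.card_congr
      { toFun := fun x => (⟨MulAut.congr e x, x.2⟩ : R')
        invFun := fun x => (⟨(MulAut.congr e).symm x, (by
          show MulAut.congr e ((MulAut.congr e).symm x) ∈ R'
          rw [(MulAut.congr e).apply_symm_apply]; exact x.2)⟩ : R)
        left_inv := fun x => Subtype.ext ((MulAut.congr e).symm_apply_apply x)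
        right_inv := fun x => Subtype.ext ((MulAut.congr e).apply_symm_apply x) }
  rw [← hQcard, ← hRcard]
  exact h1

lemma defect_iso {S S' : Type} [Group S] [Group S'] (e : S ≃* S') : defect S = defect S' := by
  classical
  unfold defect
  rw [Nat.card_congr e.toEquiv, outOrder_iso e]
  refine Finset.prod_congr ?_ (fun _ _ => rfl)
  refine Finset.filter_congr (fun r _ => ?_)
  exact not_congr ⟨centralizerBound_iso e, centralizerBound_iso e.symm⟩

lemma defect_pos (S : Type) [Group S] : 0 < defect S := by
  classical
  unfold defect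
  refine Finset.prod_pos (fun r hr => ?_)
  exact Nat.pow_pos (Nat.prime_of_mem_primeFactors (Finset.mem_filter.mp hr).1).pos

lemma card_le_out {S : Type} [Group S] [Finite S] {r : ℕ} (hr : r.Prime)
    (hc : center S = ⊥) (Q : Sylow r S) (R : Subgroup (MulAut S)) (hR : IsPGroup r R)
    (hQ : ∀ α ∈ R, ∀ x ∈ Q, α x = x) :
    Nat.card R ≤ r ^ (outOrder S).factorization r * Nat.card (center Q) := by
  have hrf : Fact r.Prime := ⟨hr⟩
  have h1 := Pool.Agent.H898.AutSyl.card_map_mul
    (QuotientGroup.mk' (MulAut.conj : S →* MulAut S).range) R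
  rw [QuotientGroup.ker_mk'] at h1
  have h2 : Nat.card (R.map (QuotientGroup.mk' (MulAut.conj : S →* MulAut S).range)) ≤
      r ^ (outOrder S).factorization r := by
    obtain ⟨e, he⟩ := IsPGroup.iff_card.mp
      (hR.map (QuotientGroup.mk' (MulAut.conj : S →* MulAut S).range))
    have h3 : Nat.card (R.map (QuotientGroup.mk' (MulAut.conj : S →* MulAut S).range)) ∣
        outOrder S := by
      unfold outOrder
      rw [index_eq_card]; exact card_subgroup_dvd_card _
    rw [he] at h3 ⊢
    have h4 := (Nat.Prime.pow_dvd_iff_le_factorization hr index_ne_zero_of_finite).mp h3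
    exact Nat.pow_le_pow_right hr.pos h4
  have h5 : Nat.card (R ⊓ (MulAut.conj : S →* MulAut S).range : Subgroup (MulAut S)) ≤
      Nat.card (center Q) := by
    have hex : ∀ x : (R ⊓ (MulAut.conj : S →* MulAut S).range : Subgroup (MulAut S)),
        ∃ s : S, MulAut.conj s = (x : MulAut S) := fun x => x.2.2
    choose g hg using hex
    have hgQ : ∀ x, g x ∈ Q := fun x =>
      Pool.Agent.H898.AutSyl.le_of_centralize hc Q R hR hQ (g x) (by rw [hg]; exact x.2.1)
    have hgZ : ∀ x, (⟨g x, hgQ x⟩ : (Q : Subgroup S)) ∈ center (Q : Subgroup S) := by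
      intro x
      rw [mem_center_iff]
      intro y
      apply Subtype.ext
      have h6 := hQ _ x.2.1 y y.2
      rw [← hg, MulAut.conj_apply] at h6
      exact (mul_inv_eq_iff_eq_mul.mp h6).symm
    refine Nat.card_le_card_of_injective
      (fun x => (⟨⟨g x, hgQ x⟩, hgZ x⟩ : center (Q : Subgroup S))) ?_
    intro x y hxy
    have h7 : g x = g y :=
      congrArg (fun z : center (Q : Subgroup S) => ((z : (Q : Subgroup S)) : S)) hxy
    apply Subtype.ext
    rw [← hg, ← hg, h7]
  rw [← h1]
  exact Nat.mul_le_mul h2 h5

lemma weight_defect : Pool.Agent.H898.AutSyl.Weight defect where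
  pos S := defect_pos S
  iso := fun S S' _ _ ⟨e⟩ => defect_iso e
  bound := by
    intro S _ _ hS hna r hr hdvd Q R hR hQ
    by_cases hb : CentralizerBound r S
    · exact (hb Q R hR hQ).trans (Nat.le_mul_of_pos_right _ (Nat.pow_pos hr.pos))
    · have h1 := card_le_out hr (Pool.Agent.H898.AutSyl.center_of_simple hS hna) Q R hR hQ
      have h2 : r ^ (outOrder S).factorization r ∣ defect S := by
        classical
        unfold defect
        exact Finset.dvd_prod_of_mem (fun r => r ^ (outOrder S).factorization r)
          (Finset.mem_filter.mpr ⟨Nat.mem_primeFactors.mpr ⟨hr, hdvd, Nat.card_pos.ne'⟩, hb⟩)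
      have h3 := (Nat.Prime.pow_dvd_iff_le_factorization hr (defect_pos S).ne').mp h2
      calc Nat.card R ≤ r ^ (outOrder S).factorization r * Nat.card (center Q) := h1
        _ ≤ r ^ (defect S).factorization r * Nat.card Q :=
            Nat.mul_le_mul (Nat.pow_le_pow_right hr.pos h3)
              (Nat.card_le_card_of_injective _ (center (Q : Subgroup S)).subtype_injective)
        _ = _ := mul_comm _ _

lemma defect_dvd (S : Type) [Group S] [Finite S] : defect S ∣ outOrder S := by
  classical
  unfold defect
  refine Finset.prod_dvd_of_isRelPrime ?_ ?_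
  · intro p hp q hq hpq
    have hp' := Nat.prime_of_mem_primeFactors (Finset.mem_filter.mp hp).1
    have hq' := Nat.prime_of_mem_primeFactors (Finset.mem_filter.mp hq).1
    rw [Function.onFun, ← Nat.coprime_iff_isRelPrime]
    exact Nat.Coprime.pow _ _ ((Nat.coprime_primes hp' hq').mpr hpq)
  · intro r _
    exact Nat.ordProj_dvd _ _

lemma defect_eq_one (S : Type) [Group S]
    (h : ∀ r : ℕ, r.Prime → r ∣ Nat.card S → CentralizerBound r S) : defect S = 1 := by
  classical
  unfold defect
  apply Finset.prod_eq_one
  intro r hr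
  exfalso
  obtain ⟨h1, h2⟩ := Finset.mem_filter.mp hr
  exact h2 (h r (Nat.prime_of_mem_primeFactors h1) (Nat.dvd_of_mem_primeFactors h1))

lemma bound_of_comm {S : Type} [Group S] [Finite S] (hS : IsSimpleGroup S)
    (hc : ∀ x y : S, x * y = y * x) {r : ℕ} (hr : r.Prime) (hdvd : r ∣ Nat.card S) :
    CentralizerBound r S := by
  have hrf : Fact r.Prime := ⟨hr⟩
  intro Q R hR hQ
  have hn : (Q : Subgroup S).Normal := ⟨fun x hx g => by
    rw [hc g x, mul_inv_cancel_right]; exact hx⟩
  have htop : (Q : Subgroup S) = ⊤ := by
    rcases hS.eq_bot_or_eq_top_of_normal (Q : Subgroup S) hn with h | h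
    · exact absurd h (Q.ne_bot_of_dvd_card hdvd)
    · exact h
  have hR1 : R = ⊥ := by
    rw [eq_bot_iff]
    intro α hα
    rw [mem_bot]
    ext x
    have hx : x ∈ (Q : Subgroup S) := by rw [htop]; trivial
    exact hQ α hα x hx
  rw [hR1, card_bot]
  exact Nat.card_pos

/-- Q1 for the group `G` (for every choice of the Sylow subgroups). -/
def Divisibility (G : Type) [Group G] : Prop :=
  ∀ P : (∀ p ∈ (Nat.card G).primeFactors, Sylow p G), Nat.card (MulAut G) ∣ rhs G P

/-- Q1 for the `r`-part of `|Aut G|`. -/
def DivisibilityAt (r : ℕ) (G : Type) [Group G] : Prop :=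
  ∀ P : (∀ p ∈ (Nat.card G).primeFactors, Sylow p G),
    r ^ (Nat.card (MulAut G)).factorization r ∣ rhs G P

lemma good_of {r : ℕ} {G : Type} [Group G]
    (h : ∀ (S : Type) [Group S], IsNonabelianFactor S G → r ∣ Nat.card S →
      CentralizerBound r S) : Pool.Agent.H898.AutSyl.Good r G := by
  intro H hH S _ hS hna hf hdvd
  obtain ⟨f, hf⟩ := hf
  exact h S ⟨hS, hna, H, f.ker, inferInstance, hH,
    ⟨(QuotientGroup.quotientKerEquivOfSurjective f hf).symm⟩⟩ hdvd

lemma at_of {r : ℕ} (hr : r.Prime) {G : Type} [Group G] [Finite G]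
    (h : ∀ (S : Type) [Group S], IsNonabelianFactor S G → r ∣ Nat.card S →
      CentralizerBound r S) : DivisibilityAt r G := by
  intro P
  have : Fact r.Prime := ⟨hr⟩
  obtain ⟨A⟩ : Nonempty (Sylow r (MulAut G)) := inferInstance
  have h1 := Pool.Agent.H898.AutSyl.rpart (good_of h) P A A.2
  have h2 : Nat.card (A : Subgroup (MulAut G)) =
      r ^ (Nat.card (MulAut G)).factorization r := A.card_eq_multiplicity
  rw [h2] at h1
  exact h1

lemma all_of {G : Type} [Group G] [Finite G] (h : ∀ r : ℕ, r.Prime → DivisibilityAt r G) :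
    Divisibility G := by
  intro P
  by_cases h0 : rhs G P = 0
  · rw [h0]; exact dvd_zero _
  · rw [← Nat.factorization_prime_le_iff_dvd Nat.card_pos.ne' h0]
    intro r hr
    exact (Nat.Prime.pow_dvd_iff_le_factorization hr h0).mp (h r hr P)

lemma universal {G : Type} [Group G] [Finite G] {w : ℕ} (hw : CompositionProduct defect G w)
    (P : ∀ p ∈ (Nat.card G).primeFactors, Sylow p G) : Nat.card (MulAut G) ∣ rhs G P * w := by
  by_cases h0 : rhs G P * w = 0
  · rw [h0]; exact dvd_zero _
  · rw [← Nat.factorization_prime_le_iff_dvd Nat.card_pos.ne' h0]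
    intro r hr
    have : Fact r.Prime := ⟨hr⟩
    obtain ⟨A⟩ : Nonempty (Sylow r (MulAut G)) := inferInstance
    have h1 := Pool.Agent.H898.AutSyl.rpart' weight_defect (toSer hw) P A A.2
    have h2 : Nat.card (A : Subgroup (MulAut G)) =
        r ^ (Nat.card (MulAut G)).factorization r := A.card_eq_multiplicity
    rw [h2] at h1
    have h3 : r ^ w.factorization r ∣ w := Nat.ordProj_dvd _ _
    refine (Nat.Prime.pow_dvd_iff_le_factorization hr h0).mp (h1.trans ?_)
    unfold rhs
    exact Nat.mul_dvd_mul dvd_rfl h3

lemma solvable_no_factor {G : Type} [Group G] (hG : Group.IsSolvable G) (S : Type) [Group S] :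
    ¬ IsNonabelianFactor S G := by
  rintro ⟨hS, ⟨x, y, hxy⟩, H, K, hK, _, ⟨e⟩⟩
  have h1 : Group.IsSolvable (H ⧸ K) := inferInstance
  have h2 : Group.IsSolvable S :=
    Group.isSolvable_of_surjective (f := e.symm.toMonoidHom) e.symm.surjective
  exact hxy (IsSimpleGroup.comm_iff_isSolvable.mpr h2 x y)

/-- **Main theorem.** -/
theorem result :
    -- (1) every finite group: the divisibility holds up to the product of the defects of the
    -- composition factors (this product does not depend on the composition series)
    (∀ (G : Type) [Group G] [Finite G], ∃ w : ℕ, CompositionProduct defect G w ∧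
      (∀ w', CompositionProduct defect G w' → w' = w) ∧
      ∀ P : (∀ p ∈ (Nat.card G).primeFactors, Sylow p G), Nat.card (MulAut G) ∣ rhs G P * w) ∧
    -- (2) the defect of a simple group `S` divides `|Out S|`, and is `1` if `S` is abelian or if
    -- `|Out S|_r * |Z(Q)| ≤ |Q|` for all primes `r` dividing `|S|`, `Q` a Sylow `r`-subgroup
    (∀ (S : Type) [Group S] [Finite S], IsSimpleGroup S → defect S ∣ outOrder S ∧
      ((∀ x y : S, x * y = y * x) → defect S = 1) ∧
      ((∀ r : ℕ, r.Prime → r ∣ Nat.card S → ∀ Q : Sylow r S,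
        r ^ (outOrder S).factorization r * Nat.card (center Q) ≤ Nat.card Q) → defect S = 1)) ∧
    -- (3) Q1 if all nonabelian composition factors satisfy the centralizer bound
    (∀ (G : Type) [Group G] [Finite G],
      (∀ (S : Type) [Group S], IsNonabelianFactor S G → ∀ r : ℕ, r.Prime → r ∣ Nat.card S →
        CentralizerBound r S) → Divisibility G) ∧
    -- (4) Q1 for the `r`-part, if the nonabelian composition factors of order divisible by `r`
    -- satisfy the centralizer bound at `r`
    (∀ (G : Type) [Group G] [Finite G] (r : ℕ), r.Prime →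
      (∀ (S : Type) [Group S], IsNonabelianFactor S G → r ∣ Nat.card S → CentralizerBound r S) →
      DivisibilityAt r G) ∧
    -- (5) Q1 for soluble groups
    (∀ (G : Type) [Group G] [Finite G], Group.IsSolvable G → Divisibility G) := by
  refine ⟨?_, ?_, ?_, ?_, ?_⟩
  · intro G _ _
    obtain ⟨w, hw⟩ := Pool.Agent.H898.AutSyl.exists_ser defect (Nat.card G) G rfl
    exact ⟨w, ofSer hw, fun w' hw' => ser_unique weight_defect.iso hw w' (toSer hw'),
      fun P => universal (ofSer hw) P⟩
  · intro S _ _ hS
    refine ⟨defect_dvd S, ?_, ?_⟩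
    · intro hc
      exact defect_eq_one S (fun r hr hdvd => bound_of_comm hS hc hr hdvd)
    · intro h
      by_cases hc : ∀ x y : S, x * y = y * x
      · exact defect_eq_one S (fun r hr hdvd => bound_of_comm hS hc hr hdvd)
      · push Not at hc
        refine defect_eq_one S (fun r hr hdvd Q R hR hQ => ?_)
        exact (card_le_out hr (Pool.Agent.H898.AutSyl.center_of_simple hS hc) Q R hR hQ).trans
          (h r hr hdvd Q)
  · intro G _ _ h
    exact all_of (fun r hr => at_of hr (fun S _ hS => h S hS r hr))
  · intro G _ _ r hr h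
    exact at_of hr h
  · intro G _ _ hG
    exact all_of (fun r hr => at_of hr (fun S _ hS => absurd hS (solvable_no_factor hG S)))

end Pool.Agent.Results.MP_d45cc7_al.AllFiniteGroups
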