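import Pool.Agent.H898.AutSyl6

set_option autoImplicit false

/-!
# Divisibility of `|Aut G|` by Sylow subgroups: reduction to composition factors

Neumann's question: does `|Aut G|` divide `|G / Z(G)| * ∏ |Aut P_i|` for every finite group `G`?
We prove it for every finite group all of whose nonabelian composition factors `S` satisfy, for
each prime `r` dividing `|S|`, the condition that an `r`-group of automorphisms of `S` centralizing
a Sylow `r`-subgroup `Q` of `S` has order at most `|Q|`; this holds in particular if
`|Out S|_r * |Z(Q)| ≤ |Q|`.  In particular it holds for all finite soluble groups.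
-/

namespace Pool.Agent.Results.MP_d45cc7_al.CompositionFactors

open Subgroup

/-- The right-hand side of the divisibility: `|G / Z(G)| * ∏ |Aut P_p|`, the product over the
primes `p` dividing `|G|`. -/
noncomputable def rhs (G : Type) [Group G]
    (P : ∀ p ∈ (Nat.card G).primeFactors, Sylow p G) : ℕ :=
  Nat.card (G ⧸ center G) *
    ∏ p : (Nat.card G).primeFactors, Nat.card (MulAut (↥(P p.1 p.2 : Subgroup G)))

/-- The statement of Q1 for the group `G` (for every choice of the Sylow subgroups). -/
def Divisibility (G : Type) [Group G] : Prop :=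
  ∀ P : (∀ p ∈ (Nat.card G).primeFactors, Sylow p G), Nat.card (MulAut G) ∣ rhs G P

/-- The statement of Q1 for the `r`-part of `|Aut G|`. -/
def DivisibilityAt (r : ℕ) (G : Type) [Group G] : Prop :=
  ∀ P : (∀ p ∈ (Nat.card G).primeFactors, Sylow p G),
    r ^ (Nat.card (MulAut G)).factorization r ∣ rhs G P

/-- `S` is a nonabelian composition factor of `G`: a nonabelian simple group isomorphic to
`H / K` with `H` subnormal in `G` and `K` normal in `H`. -/
structure IsNonabelianFactor (S G : Type) [Group S] [Group G] : Prop where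
  simple : IsSimpleGroup S
  nonabelian : ∃ x y : S, x * y ≠ y * x
  factor : ∃ (H : Subgroup G) (K : Subgroup H) (_ : K.Normal),
    H.IsSubnormal ∧ Nonempty (S ≃* H ⧸ K)

/-- Every `r`-group of automorphisms of `S` that centralizes a Sylow `r`-subgroup `Q` of `S` has
order at most `|Q|`. -/
def CentralizerBound (r : ℕ) (S : Type) [Group S] : Prop :=
  ∀ (Q : Sylow r S) (R : Subgroup (MulAut S)), IsPGroup r R →
    (∀ α ∈ R, ∀ x ∈ Q, α x = x) → Nat.card R ≤ Nat.card Q

/-- `|Out S|`: the index of the group of inner automorphisms in `Aut S`. -/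
noncomputable def outOrder (S : Type) [Group S] : ℕ :=
  (MulAut.conj : S →* MulAut S).range.index

lemma good_of {r : ℕ} {G : Type} [Group G]
    (h : ∀ (S : Type) [Group S], IsNonabelianFactor S G → r ∣ Nat.card S →
      CentralizerBound r S) : Pool.Agent.H898.AutSyl.Good r G := by
  intro H hH S _ hS hna hf hdvd
  obtain ⟨f, hf⟩ := hf
  exact h S ⟨hS, hna, H, f.ker, inferInstance, hH,
    ⟨(QuotientGroup.quotientKerEquivOfSurjective f hf).symm⟩⟩ hdvd

lemma at_of {r : ℕ} (hr : r.Prime) {G : Type} [Group G] [Finite G]
    (h : ∀ (S : Type) [Group S], IsNonabelianFactor S G → r ∣ Nat.card S →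
      CentralizerBound r S) : DivisibilityAt r G := by
  intro P
  have : Fact r.Prime := ⟨hr⟩
  obtain ⟨A⟩ : Nonempty (Sylow r (MulAut G)) := inferInstance
  have h1 := Pool.Agent.H898.AutSyl.rpart (good_of h) P A A.2
  have h2 : Nat.card (A : Subgroup (MulAut G)) =
      r ^ (Nat.card (MulAut G)).factorization r := A.card_eq_multiplicity
  rw [h2] at h1
  exact h1

lemma all_of {G : Type} [Group G] [Finite G] (h : ∀ r : ℕ, r.Prime → DivisibilityAt r G) :
    Divisibility G := by
  intro P
  by_cases h0 : rhs G P = 0
  · rw [h0]; exact dvd_zero _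
  · rw [← Nat.factorization_prime_le_iff_dvd Nat.card_pos.ne' h0]
    intro r hr
    exact (Nat.Prime.pow_dvd_iff_le_factorization hr h0).mp (h r hr P)

lemma solvable_no_factor {G : Type} [Group G] (hG : Group.IsSolvable G) (S : Type) [Group S] :
    ¬ IsNonabelianFactor S G := by
  rintro ⟨hS, ⟨x, y, hxy⟩, H, K, hK, _, ⟨e⟩⟩
  have h1 : Group.IsSolvable (H ⧸ K) := inferInstance
  have h2 : Group.IsSolvable S :=
    Group.isSolvable_of_surjective (f := e.symm.toMonoidHom) e.symm.surjective
  exact hxy (IsSimpleGroup.comm_iff_isSolvable.mpr h2 x y)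

/-- **Main theorem.** -/
theorem result :
    -- (1) the `r`-part, for groups whose nonabelian composition factors of order divisible by `r`
    -- satisfy the centralizer bound at `r`
    (∀ (G : Type) [Group G] [Finite G] (r : ℕ), r.Prime →
      (∀ (S : Type) [Group S], IsNonabelianFactor S G → r ∣ Nat.card S → CentralizerBound r S) →
      DivisibilityAt r G) ∧
    -- (2) all primes
    (∀ (G : Type) [Group G] [Finite G],
      (∀ (S : Type) [Group S], IsNonabelianFactor S G → ∀ r : ℕ, r.Prime → r ∣ Nat.card S →
        CentralizerBound r S) →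
      Divisibility G) ∧
    -- (3) numerical criterion: `|Out S|_r ≤ |Q : Z(Q)|` for the Sylow `r`-subgroups `Q` of `S`
    (∀ (G : Type) [Group G] [Finite G],
      (∀ (S : Type) [Group S], IsNonabelianFactor S G → ∀ r : ℕ, r.Prime → r ∣ Nat.card S →
        ∀ Q : Sylow r S, r ^ (outOrder S).factorization r * Nat.card (center Q) ≤ Nat.card Q) →
      Divisibility G) ∧
    -- (4) soluble groups
    (∀ (G : Type) [Group G] [Finite G], Group.IsSolvable G → Divisibility G) ∧
    -- (5) the `r`-part for `r`-soluble groups, in particular for primes not dividing `|G|`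
    (∀ (G : Type) [Group G] [Finite G] (r : ℕ), r.Prime →
      (∀ (S : Type) [Group S], IsNonabelianFactor S G → ¬ r ∣ Nat.card S) →
      DivisibilityAt r G) := by
  refine ⟨?_, ?_, ?_, ?_, ?_⟩
  · intro G _ _ r hr h
    exact at_of hr h
  · intro G _ _ h
    exact all_of (fun r hr => at_of hr (fun S _ hS => h S hS r hr))
  · intro G _ _ h
    refine all_of (fun r hr => at_of hr (fun S _ hS hdvd => ?_))
    have : Fact r.Prime := ⟨hr⟩
    obtain ⟨H, K, hK, hH, ⟨e⟩⟩ := hS.factor
    have hfin : Finite S := Finite.of_equiv _ e.symm.toEquiv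
    exact Pool.Agent.H898.AutSyl.bound_of_numeric
      (Pool.Agent.H898.AutSyl.center_of_simple hS.simple hS.nonabelian)
      (fun _ => h S hS r hr hdvd) hdvd
  · intro G _ _ hG
    exact all_of (fun r hr => at_of hr (fun S _ hS => absurd hS (solvable_no_factor hG S)))
  · intro G _ _ r hr h
    exact at_of hr (fun S _ hS hdvd => absurd hdvd (h S hS))

end Pool.Agent.Results.MP_d45cc7_al.CompositionFactors
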