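import Mathlib
import Pool.Agent.Helper128.AutDiv.Main
set_option autoImplicit false

namespace Pool.Agent.Results.MP_d45cc7_al.Soluble

open Pool.Agent.Helper128.AutDiv

theorem result :
    (∀ (G : Type) [Group G] [Finite G] (P : ∀ p ∈ (Nat.card G).primeFactors, Sylow p G) (d : ℕ),
      d ∣ Nat.card (MulAut G) → (∀ r : ℕ, r.Prime → r ∣ d → RSoluble r G) →
        d ∣ Nat.card (G ⧸ Subgroup.center G) *
          ∏ p : (Nat.card G).primeFactors, Nat.card (MulAut (↥(P p.1 p.2 : Subgroup G)))) ∧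
    (∀ (G : Type) [Group G] [Finite G] (P : ∀ p ∈ (Nat.card G).primeFactors, Sylow p G),
      Group.IsSolvable G →
        Nat.card (MulAut G) ∣ Nat.card (G ⧸ Subgroup.center G) *
          ∏ p : (Nat.card G).primeFactors, Nat.card (MulAut (↥(P p.1 p.2 : Subgroup G)))) :=
  ⟨fun G _ _ P d hd hs => rs_dvd G P d hd hs,
   fun G _ _ P hs => rs_dvd G P _ dvd_rfl (fun r hr _ => rs_of_soluble r hr G hs)⟩

end Pool.Agent.Results.MP_d45cc7_al.Soluble
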